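import Mathlib

section

/-! The weight function of the degree bound and its elementary properties. -/

namespace Pool.Agent.MP_53c2ae_co

/-- Weights: `1, 1/2, 2/5, 0.3413`, then the recursion of Shearer. -/
noncomputable def wt : ℕ → ℝ
  | 0 => 1
  | 1 => 1 / 2
  | 2 => 2 / 5
  | 3 => 3413 / 10000
  | (d + 4) => (1 + (((d : ℝ) + 4) ^ 2 - ((d : ℝ) + 4)) * wt (d + 3)) / (((d : ℝ) + 4) ^ 2 + 1)

/-- Backward difference of the weights. -/
noncomputable def dl (d : ℕ) : ℝ := wt (d - 1) - wt d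

lemma wt0 : wt 0 = 1 := rfl
lemma wt1 : wt 1 = 1 / 2 := rfl
lemma wt2 : wt 2 = 2 / 5 := rfl
lemma wt3 : wt 3 = 3413 / 10000 := rfl

lemma wt_rec (d : ℕ) :
    wt (d + 4) * (((d : ℝ) + 4) ^ 2 + 1) = 1 + (((d : ℝ) + 4) ^ 2 - ((d : ℝ) + 4)) * wt (d + 3) := by
  have h : (((d : ℝ) + 4) ^ 2 + 1) ≠ 0 := by positivity
  rw [wt]; field_simp

lemma wt4 : wt 4 = 50956 / 170000 := by
  have h := wt_rec 0
  simp only [Nat.cast_zero, zero_add] at h
  rw [wt3] at h
  linarith

lemma dl1 : dl 1 = 1 / 2 := by unfold dl; rw [show (1 - 1 : ℕ) = 0 from rfl, wt0, wt1]; norm_num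
lemma dl2 : dl 2 = 1 / 10 := by unfold dl; rw [show (2 - 1 : ℕ) = 1 from rfl, wt1, wt2]; norm_num
lemma dl3 : dl 3 = 587 / 10000 := by
  unfold dl; rw [show (3 - 1 : ℕ) = 2 from rfl, wt2, wt3]; norm_num
lemma dl4 : dl 4 = 7065 / 170000 := by
  unfold dl; rw [show (4 - 1 : ℕ) = 3 from rfl, wt3, wt4]; norm_num

lemma wt_low (d : ℕ) :
    3 * ((d : ℝ) + 3) + 2 ≤ wt (d + 3) * (2 * ((d : ℝ) + 3) ^ 2 + 6 * ((d : ℝ) + 3) + 2) := by
  induction d with
  | zero => simp only [Nat.cast_zero, zero_add]; rw [wt3]; norm_num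
  | succ d ih =>
    have hr := wt_rec d
    have hd : (0 : ℝ) ≤ d := Nat.cast_nonneg d
    push_cast
    set x : ℝ := (d : ℝ) + 4 with hx
    have e1 : (d : ℝ) + 1 + 3 = x := by rw [hx]; ring
    have e2 : (d : ℝ) + 3 = x - 1 := by rw [hx]; ring
    rw [e1, show d + 1 + 3 = d + 4 from rfl]
    rw [e2] at ih
    have hx4 : 4 ≤ x := by rw [hx]; linarith
    set a := wt (d + 3)
    set b := wt (d + 4)
    have hp : 0 < 2 * x ^ 2 + 2 * x - 2 := by nlinarith
    have hq : 0 < x ^ 2 + 1 := by positivity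
    have h1 : (3 * x - 2) * (x ^ 2 + 1) ≤ (b * (2 * x ^ 2 + 2 * x - 2)) * (x ^ 2 + 1) := by
      have h2 : (b * (2 * x ^ 2 + 2 * x - 2)) * (x ^ 2 + 1)
          = (1 + (x ^ 2 - x) * a) * (2 * x ^ 2 + 2 * x - 2) := by rw [← hr]; ring
      have h3 : (x ^ 2 - x) * (3 * x - 1) ≤ (x ^ 2 - x) * (a * (2 * x ^ 2 + 2 * x - 2)) := by
        apply mul_le_mul_of_nonneg_left _ (by nlinarith)
        nlinarith
      rw [h2]; nlinarith
    have h4 : 3 * x - 2 ≤ b * (2 * x ^ 2 + 2 * x - 2) := le_of_mul_le_mul_right h1 hq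
    have h5 : (3 * x + 2) * (2 * x ^ 2 + 2 * x - 2)
        ≤ (b * (2 * x ^ 2 + 6 * x + 2)) * (2 * x ^ 2 + 2 * x - 2) := by
      have h6 : (3 * x - 2) * (2 * x ^ 2 + 6 * x + 2)
          ≤ (b * (2 * x ^ 2 + 2 * x - 2)) * (2 * x ^ 2 + 6 * x + 2) :=
        mul_le_mul_of_nonneg_right h4 (by positivity)
      nlinarith
    exact le_of_mul_le_mul_right h5 hp

lemma dl_succ_le (d : ℕ) : dl (d + 2) ≤ dl (d + 1) := by
  match d with
  | 0 => rw [dl1, dl2]; norm_num
  | 1 => rw [dl2, dl3]; norm_num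
  | 2 => rw [dl3, dl4]; norm_num
  | (d + 3) =>
    have h1 := wt_rec d
    have h2 := wt_rec (d + 1)
    have h3 := wt_low (d + 1)
    have hd : (0 : ℝ) ≤ d := Nat.cast_nonneg d
    push_cast at h2 h3
    unfold dl
    rw [show d + 3 + 2 - 1 = d + 4 from rfl, show d + 3 + 1 - 1 = d + 3 from rfl,
      show d + 3 + 2 = d + 1 + 4 from rfl, show d + 3 + 1 = d + 4 from rfl]
    rw [show d + 1 + 3 = d + 4 from rfl] at h2 h3
    set x : ℝ := (d : ℝ) + 4 with hx
    have e1 : (d : ℝ) + 1 + 3 = x := by rw [hx]; ring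
    have e2 : (d : ℝ) + 1 + 4 = x + 1 := by rw [hx]; ring
    rw [e1] at h3
    rw [e2] at h2
    have hx4 : 4 ≤ x := by rw [hx]; linarith
    set a := wt (d + 3)
    set b := wt (d + 4)
    set c := wt (d + 1 + 4)
    have hp : 0 < (x ^ 2 - x) * ((x + 1) ^ 2 + 1) := by
      apply mul_pos <;> nlinarith
    have k1 : (a - b) * (x ^ 2 - x) = (x + 1) * b - 1 := by nlinarith
    have k2 : (b - c) * ((x + 1) ^ 2 + 1) = (x + 2) * b - 1 := by nlinarith
    have k3 : (b - c) * ((x ^ 2 - x) * ((x + 1) ^ 2 + 1))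
        ≤ (a - b) * ((x ^ 2 - x) * ((x + 1) ^ 2 + 1)) := by
      have l1 : (b - c) * ((x ^ 2 - x) * ((x + 1) ^ 2 + 1)) = ((x + 2) * b - 1) * (x ^ 2 - x) := by
        rw [← k2]; ring
      have l2 : (a - b) * ((x ^ 2 - x) * ((x + 1) ^ 2 + 1))
          = ((x + 1) * b - 1) * ((x + 1) ^ 2 + 1) := by
        rw [← k1]; ring
      rw [l1, l2]; nlinarith
    exact le_of_mul_le_mul_right k3 hp

lemma dl_anti {a b : ℕ} (ha : 1 ≤ a) (hab : a ≤ b) : dl b ≤ dl a := by
  induction b, hab using Nat.le_induction with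
  | base => exact le_rfl
  | succ n hn ih =>
    obtain ⟨m, rfl⟩ : ∃ m, n = m + 1 := ⟨n - 1, by omega⟩
    exact (dl_succ_le m).trans ih

lemma dl_nonneg (d : ℕ) : 0 ≤ dl d := by
  match d with
  | 0 => unfold dl; simp
  | 1 => rw [dl1]; norm_num
  | 2 => rw [dl2]; norm_num
  | 3 => rw [dl3]; norm_num
  | (d + 4) =>
    have h1 := wt_rec d
    have h3 := wt_low (d + 1)
    have hd : (0 : ℝ) ≤ d := Nat.cast_nonneg d
    push_cast at h3
    unfold dl
    rw [show d + 4 - 1 = d + 3 from rfl]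
    rw [show d + 1 + 3 = d + 4 from rfl] at h3
    set x : ℝ := (d : ℝ) + 4 with hx
    have e1 : (d : ℝ) + 1 + 3 = x := by rw [hx]; ring
    rw [e1] at h3
    have hx4 : 4 ≤ x := by rw [hx]; linarith
    set a := wt (d + 3)
    set b := wt (d + 4)
    have k1 : (a - b) * (x ^ 2 - x) = (x + 1) * b - 1 := by nlinarith
    have hp : 0 < 2 * x ^ 2 + 6 * x + 2 := by positivity
    have k2 : 1 * (2 * x ^ 2 + 6 * x + 2) ≤ ((x + 1) * b) * (2 * x ^ 2 + 6 * x + 2) := by
      have : (x + 1) * (3 * x + 2) ≤ (x + 1) * (b * (2 * x ^ 2 + 6 * x + 2)) :=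
        mul_le_mul_of_nonneg_left h3 (by linarith)
      nlinarith
    have k3 : 1 ≤ (x + 1) * b := le_of_mul_le_mul_right k2 hp
    have hq : 0 < x ^ 2 - x := by nlinarith
    by_contra hneg
    have : (a - b) * (x ^ 2 - x) < 0 := mul_neg_of_neg_of_pos (by linarith) hq
    linarith

lemma wt_anti {a b : ℕ} (hab : a ≤ b) : wt b ≤ wt a := by
  induction b, hab using Nat.le_induction with
  | base => exact le_rfl
  | succ n hn ih =>
    have h := dl_nonneg (n + 1)
    unfold dl at h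
    rw [Nat.add_sub_cancel] at h
    linarith

lemma wt_convex (m n : ℕ) : (n : ℝ) * dl (m + n) ≤ wt m - wt (m + n) := by
  induction n with
  | zero => simp
  | succ n ih =>
    have h1 : dl (m + (n + 1)) = wt (m + n) - wt (m + (n + 1)) := by
      unfold dl; rw [show m + (n + 1) - 1 = m + n by omega]
    rcases Nat.eq_zero_or_pos n with rfl | hn
    · simp only [Nat.cast_one, zero_add, one_mul, add_zero] at h1 ⊢
      linarith
    · have h2 : dl (m + (n + 1)) ≤ dl (m + n) := dl_anti (by omega) (by omega)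
      have h3 : (n : ℝ) * dl (m + (n + 1)) ≤ (n : ℝ) * dl (m + n) :=
        mul_le_mul_of_nonneg_left h2 (Nat.cast_nonneg n)
      push_cast
      linarith

lemma wt_defect (d : ℕ) :
    1 - ((d : ℝ) + 1) * wt d + (d : ℝ) * ((d : ℝ) - 1) * dl d
      = if d = 3 then -(13 / 1000) else 0 := by
  match d with
  | 0 => simp [wt0]
  | 1 => rw [wt1]; norm_num
  | 2 => rw [wt2, dl2]; norm_num
  | 3 => rw [wt3, dl3]; norm_num
  | (d + 4) =>
    have h1 := wt_rec d
    rw [if_neg (by omega)]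
    unfold dl
    rw [show d + 4 - 1 = d + 3 from rfl]
    push_cast
    linarith

lemma slack_nonneg {a b : ℕ} (ha : 1 ≤ a) (hb : 1 ≤ b) :
    0 ≤ ((a : ℝ) - b) * (dl b - dl a) := by
  rcases le_total a b with h | h
  · have h1 : (a : ℝ) ≤ b := by exact_mod_cast h
    have h2 := dl_anti ha h
    nlinarith
  · have h1 : (b : ℝ) ≤ a := by exact_mod_cast h
    have h2 := dl_anti hb h
    nlinarith

lemma slack_two : 39 / 1000 ≤ (((3 : ℕ) : ℝ) - (2 : ℕ)) * (dl 2 - dl 3) := by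
  rw [dl2, dl3]; norm_num

lemma slack_three {b : ℕ} (hb : 2 ≤ b) (h3 : b ≠ 3) :
    13 / 1000 ≤ (((3 : ℕ) : ℝ) - b) * (dl b - dl 3) := by
  rcases Nat.lt_or_ge b 3 with h | h
  · obtain rfl : b = 2 := by omega
    have := slack_two
    linarith
  · have h4 : 4 ≤ b := by omega
    have h1 : (4 : ℝ) ≤ b := by exact_mod_cast h4
    have h2 := dl_anti (show 1 ≤ 4 by norm_num) h4
    rw [dl4] at h2
    rw [dl3]
    push_cast
    nlinarith

end Pool.Agent.MP_53c2ae_co

end

section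

/-! One deletion step and the averaging identity. -/

namespace Pool.Agent.MP_53c2ae_co

open Finset

variable {V : Type} [DecidableEq V] (G : SimpleGraph V) [DecidableRel G.Adj]

/-- Neighbours of `v` inside `S`. -/
def nb (S : Finset V) (v : V) : Finset V := S.filter (fun u => G.Adj v u)

/-- Degree of `v` inside `S`. -/
def dg (S : Finset V) (v : V) : ℕ := (nb G S v).card

/-- `S` without the closed neighbourhood of `v`. -/
def del (S : Finset V) (v : V) : Finset V := S.filter (fun w => w ≠ v ∧ ¬ G.Adj v w)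

/-- Number of common neighbours inside `S`. -/
def co (S : Finset V) (v w : V) : ℕ := ((nb G S v).filter (fun u => G.Adj w u)).card

/-- The potential. -/
noncomputable def phi (S : Finset V) : ℝ := ∑ v ∈ S, wt (dg G S v)

/-- Lower bound for the gain of choosing `v`. -/
noncomputable def gam (S : Finset V) (v : V) : ℝ :=
  1 - wt (dg G S v) - ∑ u ∈ nb G S v, wt (dg G S u)
    + ∑ u ∈ nb G S v, ∑ w ∈ (nb G S u).erase v, dl (dg G S w)

/-- `S` holds an independent set with at least `r` elements. -/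
def Ok (S : Finset V) (r : ℝ) : Prop :=
  ∃ I : Finset V, I ⊆ S ∧ (∀ a ∈ I, ∀ b ∈ I, ¬ G.Adj a b) ∧ r ≤ I.card

variable {G}

lemma mem_nb {S : Finset V} {v u : V} : u ∈ nb G S v ↔ u ∈ S ∧ G.Adj v u := by
  simp [nb]

lemma mem_del {S : Finset V} {v w : V} : w ∈ del G S v ↔ w ∈ S ∧ w ≠ v ∧ ¬ G.Adj v w := by
  simp [del]

lemma Ok.mono {S : Finset V} {r r' : ℝ} (h : Ok G S r) (hr : r' ≤ r) : Ok G S r' := by
  obtain ⟨I, h1, h2, h3⟩ := h
  exact ⟨I, h1, h2, hr.trans h3⟩

lemma Ok.ins {S : Finset V} {v : V} {r : ℝ} (hv : v ∈ S) (h : Ok G (del G S v) r) :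
    Ok G S (r + 1) := by
  obtain ⟨I, h1, h2, h3⟩ := h
  have hvI : v ∉ I := fun hh => (mem_del.1 (h1 hh)).2.1 rfl
  refine ⟨insert v I, ?_, ?_, ?_⟩
  · intro a ha
    rcases mem_insert.1 ha with rfl | ha
    · exact hv
    · exact (mem_del.1 (h1 ha)).1
  · intro a ha b hb
    rcases mem_insert.1 ha with rfl | ha' <;> rcases mem_insert.1 hb with rfl | hb'
    · exact G.irrefl
    · exact (mem_del.1 (h1 hb')).2.2
    · exact fun hh => (mem_del.1 (h1 ha')).2.2 hh.symm
    · exact h2 a ha' b hb'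
  · rw [card_insert_of_notMem hvI]; push_cast; linarith

lemma card_del_lt {S : Finset V} {v : V} (hv : v ∈ S) : (del G S v).card < S.card := by
  apply card_lt_card
  refine ⟨filter_subset _ _, fun h => ?_⟩
  exact (mem_del.1 (h hv)).2.1 rfl

lemma dg_del {S : Finset V} {v w : V} (hw : w ∈ del G S v) :
    dg G (del G S v) w + co G S v w = dg G S w := by
  obtain ⟨hwS, hwv, hvw⟩ := mem_del.1 hw
  unfold dg co
  rw [← card_union_of_disjoint]
  · congr 1
    ext u
    simp only [mem_union, mem_nb, mem_del, mem_filter]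
    constructor
    · rintro (⟨⟨h1, _, _⟩, h4⟩ | ⟨⟨h1, _⟩, h4⟩) <;> exact ⟨h1, h4⟩
    · rintro ⟨h1, h2⟩
      by_cases h : G.Adj v u
      · exact Or.inr ⟨⟨h1, h⟩, h2⟩
      · refine Or.inl ⟨⟨h1, ?_, h⟩, h2⟩
        rintro rfl
        exact hvw h2.symm
  · rw [disjoint_left]
    intro u h1 h2
    exact (mem_del.1 (mem_nb.1 h1).1).2.2 (mem_nb.1 (mem_filter.1 h2).1).2

lemma sum_split {S : Finset V} {v : V} (hv : v ∈ S) (f : V → ℝ) :
    ∑ w ∈ S, f w = f v + ∑ u ∈ nb G S v, f u + ∑ w ∈ del G S v, f w := by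
  have h1 : S = insert v (nb G S v ∪ del G S v) := by
    ext u
    simp only [mem_insert, mem_union, mem_nb, mem_del]
    constructor
    · intro hu
      by_cases h : u = v
      · exact Or.inl h
      · by_cases h' : G.Adj v u
        · exact Or.inr (Or.inl ⟨hu, h'⟩)
        · exact Or.inr (Or.inr ⟨hu, h, h'⟩)
    · rintro (rfl | ⟨h, _⟩ | ⟨h, _⟩)
      · exact hv
      · exact h
      · exact h
  have h2 : v ∉ nb G S v ∪ del G S v := by
    simp only [mem_union, mem_nb, mem_del]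
    rintro (⟨_, h⟩ | ⟨_, h, _⟩)
    · exact G.irrefl h
    · exact h rfl
  have h3 : Disjoint (nb G S v) (del G S v) := by
    rw [disjoint_left]
    intro u h1 h2
    exact (mem_del.1 h2).2.2 (mem_nb.1 h1).2
  conv_lhs => rw [h1]
  rw [sum_insert h2, sum_union h3]
  ring

lemma sum_co (htf : ∀ a b c, G.Adj a b → G.Adj a c → ¬ G.Adj b c) (S : Finset V) (v : V)
    (f : V → ℝ) :
    ∑ w ∈ del G S v, (co G S v w : ℝ) * f w
      = ∑ u ∈ nb G S v, ∑ w ∈ (nb G S u).erase v, f w := by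
  have h1 : ∀ w ∈ del G S v, (co G S v w : ℝ) * f w
      = ∑ u ∈ nb G S v, if G.Adj w u then f w else 0 := by
    intro w _
    rw [← sum_filter, sum_const, nsmul_eq_mul]
    rfl
  rw [sum_congr rfl h1, sum_comm]
  refine sum_congr rfl fun u hu => ?_
  rw [← sum_filter]
  refine sum_congr ?_ fun _ _ => rfl
  ext w
  simp only [mem_filter, mem_del, mem_erase, mem_nb]
  have hvu := (mem_nb.1 hu).2
  constructor
  · rintro ⟨⟨h1, h2, _⟩, h4⟩
    exact ⟨h2, h1, h4.symm⟩
  · rintro ⟨h1, h2, h3⟩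
    exact ⟨⟨h2, h1, fun h => htf v u w hvu h h3⟩, h3.symm⟩

lemma phi_del_eq {S : Finset V} {v : V} (hv : v ∈ S) :
    phi G (del G S v) = phi G S - wt (dg G S v) - ∑ u ∈ nb G S v, wt (dg G S u)
      + ∑ w ∈ del G S v, (wt (dg G (del G S v) w) - wt (dg G S w)) := by
  unfold phi
  rw [sum_split (G := G) hv (fun w => wt (dg G S w)), sum_sub_distrib]
  ring

lemma gain_ge {S : Finset V} {v w : V} (hw : w ∈ del G S v) :
    (co G S v w : ℝ) * dl (dg G S w) ≤ wt (dg G (del G S v) w) - wt (dg G S w) := by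
  rw [← dg_del hw]
  exact wt_convex _ _

lemma phi_del_ge (htf : ∀ a b c, G.Adj a b → G.Adj a c → ¬ G.Adj b c) {S : Finset V} {v : V}
    (hv : v ∈ S) : phi G S - 1 + gam G S v ≤ phi G (del G S v) := by
  rw [phi_del_eq hv]
  unfold gam
  rw [← sum_co htf S v (fun w => dl (dg G S w))]
  have := sum_le_sum (fun w (hw : w ∈ del G S v) => gain_ge (G := G) hw)
  linarith

lemma sum_swap (S : Finset V) (F : V → V → ℝ) :
    ∑ v ∈ S, ∑ u ∈ nb G S v, F v u = ∑ u ∈ S, ∑ v ∈ nb G S u, F v u := by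
  unfold nb
  simp only [sum_filter]
  rw [sum_comm]
  refine sum_congr rfl fun u _ => sum_congr rfl fun v _ => ?_
  simp only [G.adj_comm]

/-- The slack of an edge. -/
noncomputable def sl (a b : ℕ) : ℝ := ((a : ℝ) - b) * (dl b - dl a)

lemma sum_gam (S : Finset V) :
    2 * ∑ v ∈ S, gam G S v
      = 2 * ∑ v ∈ S, (if dg G S v = 3 then -(13 / 1000 : ℝ) else 0)
        + ∑ u ∈ S, ∑ w ∈ nb G S u, sl (dg G S u) (dg G S w) := by
  have hcard : ∀ u, ((nb G S u).card : ℝ) = (dg G S u : ℝ) := fun u => rfl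
  have h1 : ∑ v ∈ S, ∑ u ∈ nb G S v, wt (dg G S u) = ∑ u ∈ S, (dg G S u : ℝ) * wt (dg G S u) := by
    rw [sum_swap S (fun _ u => wt (dg G S u))]
    refine sum_congr rfl fun u _ => ?_
    rw [sum_const, nsmul_eq_mul, hcard]
  have h2 : ∑ v ∈ S, ∑ u ∈ nb G S v, ∑ w ∈ (nb G S u).erase v, dl (dg G S w)
      = ∑ u ∈ S, ∑ w ∈ nb G S u, ((dg G S u : ℝ) - 1) * dl (dg G S w) := by
    rw [sum_swap S (fun v u => ∑ w ∈ (nb G S u).erase v, dl (dg G S w))]
    refine sum_congr rfl fun u _ => ?_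
    have h3 : ∀ v ∈ nb G S u, ∑ w ∈ (nb G S u).erase v, dl (dg G S w)
        = ∑ w ∈ nb G S u, dl (dg G S w) - dl (dg G S v) := by
      intro v hv
      rw [← add_sum_erase _ _ hv]; ring
    rw [sum_congr rfl h3, sum_sub_distrib, sum_const, nsmul_eq_mul, hcard, ← mul_sum]
    ring
  have h4 : ∑ u ∈ S, ∑ w ∈ nb G S u, ((dg G S w : ℝ) - 1) * dl (dg G S w)
      = ∑ w ∈ S, (dg G S w : ℝ) * (((dg G S w : ℝ) - 1) * dl (dg G S w)) := by
    rw [sum_swap S (fun _ w => ((dg G S w : ℝ) - 1) * dl (dg G S w))]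
    refine sum_congr rfl fun u _ => ?_
    rw [sum_const, nsmul_eq_mul, hcard]
  have h5 : ∑ u ∈ S, ∑ w ∈ nb G S u, ((dg G S w : ℝ) - dg G S u) * dl (dg G S u)
      = ∑ u ∈ S, ∑ w ∈ nb G S u, ((dg G S u : ℝ) - dg G S w) * dl (dg G S w) :=
    sum_swap S (fun u w => ((dg G S w : ℝ) - dg G S u) * dl (dg G S u))
  have h6 : ∑ u ∈ S, ∑ w ∈ nb G S u, sl (dg G S u) (dg G S w)
      = ∑ u ∈ S, ∑ w ∈ nb G S u, ((dg G S u : ℝ) - dg G S w) * dl (dg G S w)
        + ∑ u ∈ S, ∑ w ∈ nb G S u, ((dg G S w : ℝ) - dg G S u) * dl (dg G S u) := by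
    rw [← sum_add_distrib]
    refine sum_congr rfl fun u _ => ?_
    rw [← sum_add_distrib]
    refine sum_congr rfl fun w _ => ?_
    unfold sl; ring
  have h7 : ∑ u ∈ S, ∑ w ∈ nb G S u, ((dg G S u : ℝ) - 1) * dl (dg G S w)
      = ∑ u ∈ S, ∑ w ∈ nb G S u, ((dg G S u : ℝ) - dg G S w) * dl (dg G S w)
        + ∑ u ∈ S, ∑ w ∈ nb G S u, ((dg G S w : ℝ) - 1) * dl (dg G S w) := by
    rw [← sum_add_distrib]
    refine sum_congr rfl fun u _ => ?_
    rw [← sum_add_distrib]
    refine sum_congr rfl fun w _ => ?_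
    ring
  have h8 : ∑ v ∈ S, (if dg G S v = 3 then -(13 / 1000 : ℝ) else 0)
      = ∑ v ∈ S, (1 - wt (dg G S v)) - ∑ u ∈ S, (dg G S u : ℝ) * wt (dg G S u)
        + ∑ w ∈ S, (dg G S w : ℝ) * (((dg G S w : ℝ) - 1) * dl (dg G S w)) := by
    rw [← sum_sub_distrib, ← sum_add_distrib]
    refine sum_congr rfl fun v _ => ?_
    rw [← wt_defect]; ring
  have h9 : ∑ v ∈ S, gam G S v
      = ∑ v ∈ S, (1 - wt (dg G S v)) - ∑ v ∈ S, ∑ u ∈ nb G S v, wt (dg G S u)
        + ∑ v ∈ S, ∑ u ∈ nb G S v, ∑ w ∈ (nb G S u).erase v, dl (dg G S w) := by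
    rw [← sum_sub_distrib, ← sum_add_distrib]
    rfl
  rw [h9, h1, h2, h7, h4, h6, h5, h8]
  ring

end Pool.Agent.MP_53c2ae_co

end

section

/-! If no single vertex has a nonnegative gain, every degree is three. -/

namespace Pool.Agent.MP_53c2ae_co

open Finset

variable {V : Type} [DecidableEq V] {G : SimpleGraph V} [DecidableRel G.Adj]

lemma one_le_dg {S : Finset V} {v u : V} (hv : v ∈ S) (hu : u ∈ nb G S v) : 1 ≤ dg G S u :=
  card_pos.2 ⟨v, mem_nb.2 ⟨hv, (mem_nb.1 hu).2.symm⟩⟩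

lemma two_le_dg {S : Finset V} {v : V} (hv : v ∈ S) (hneg : gam G S v < 0) : 2 ≤ dg G S v := by
  by_contra hlt
  have h1 : ∑ u ∈ nb G S v, wt (dg G S u) ≤ (dg G S v : ℝ) * (1 / 2) := by
    have h := sum_le_card_nsmul (nb G S v) (fun u => wt (dg G S u)) (1 / 2)
      (fun u hu => by rw [← wt1]; exact wt_anti (one_le_dg hv hu))
    rw [nsmul_eq_mul] at h
    exact h
  have h2 : 0 ≤ ∑ u ∈ nb G S v, ∑ w ∈ (nb G S u).erase v, dl (dg G S w) :=
    sum_nonneg fun u _ => sum_nonneg fun w _ => dl_nonneg _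
  unfold gam at hneg
  have h3 : dg G S v = 0 ∨ dg G S v = 1 := by omega
  rcases h3 with h | h
  · rw [h, wt0] at hneg; rw [h] at h1; push_cast at h1; linarith
  · rw [h, wt1] at hneg; rw [h] at h1; push_cast at h1; linarith

lemma sl_comm (a b : ℕ) : sl a b = sl b a := by unfold sl; ring

/-- Indicator of a cubic vertex with a neighbour of degree two. -/
noncomputable def pp (G : SimpleGraph V) [DecidableRel G.Adj] (S : Finset V) (y : V) : ℝ :=
  if dg G S y = 3 ∧ ∃ w ∈ nb G S y, dg G S w = 2 then 1 else 0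

/-- Slack collected by a cubic vertex. -/
noncomputable def tt (G : SimpleGraph V) [DecidableRel G.Adj] (S : Finset V) (v : V) : ℝ :=
  if dg G S v = 3 then ∑ w ∈ nb G S v, sl 3 (dg G S w) else 0

lemma pp_nonneg (S : Finset V) (y : V) : 0 ≤ pp G S y := by
  unfold pp; split_ifs <;> norm_num

lemma slack_ge (S : Finset V) :
    2 * ∑ v ∈ S, tt G S v ≤ ∑ u ∈ S, ∑ w ∈ nb G S u, sl (dg G S u) (dg G S w) := by
  have h1 : ∑ u ∈ S, ∑ w ∈ nb G S u, (if dg G S u = 3 then sl 3 (dg G S w) else 0)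
      = ∑ v ∈ S, tt G S v := by
    refine sum_congr rfl fun u _ => ?_
    unfold tt
    split_ifs <;> simp
  have h2 : ∑ u ∈ S, ∑ w ∈ nb G S u, (if dg G S w = 3 then sl 3 (dg G S u) else 0)
      = ∑ v ∈ S, tt G S v := by
    rw [sum_swap S (fun u w => if dg G S w = 3 then sl 3 (dg G S u) else 0), h1]
  rw [two_mul]
  nth_rewrite 1 [← h1]
  rw [← h2, ← sum_add_distrib]
  refine sum_le_sum fun u hu => ?_
  rw [← sum_add_distrib]
  refine sum_le_sum fun w hw => ?_
  have hw1 : 1 ≤ dg G S w := one_le_dg hu hw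
  have hu1 : 1 ≤ dg G S u := card_pos.2 ⟨w, hw⟩
  by_cases ha : dg G S u = 3 <;> by_cases hb : dg G S w = 3
  · rw [if_pos ha, if_pos hb, ha, hb]; unfold sl; norm_num
  · rw [if_pos ha, if_neg hb, ha]; linarith
  · rw [if_neg ha, if_pos hb, hb, sl_comm]; linarith
  · rw [if_neg ha, if_neg hb, add_zero]; exact slack_nonneg hu1 hw1

lemma share_le (S : Finset V) :
    ∑ v ∈ S, (if dg G S v = 3 then ∑ y ∈ nb G S v, pp G S y else 0)
      ≤ 2 * ∑ y ∈ S, pp G S y := by
  have h1 : ∑ v ∈ S, (if dg G S v = 3 then ∑ y ∈ nb G S v, pp G S y else 0)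
      = ∑ v ∈ S, ∑ y ∈ nb G S v, (if dg G S v = 3 then pp G S y else 0) := by
    refine sum_congr rfl fun v _ => ?_
    split_ifs <;> simp
  rw [h1, sum_swap S (fun v y => if dg G S v = 3 then pp G S y else 0), mul_sum]
  refine sum_le_sum fun y _ => ?_
  by_cases hp : dg G S y = 3 ∧ ∃ w ∈ nb G S y, dg G S w = 2
  · obtain ⟨h3, w, hw, hw2⟩ := hp
    have hp1 : pp G S y = 1 := by unfold pp; rw [if_pos ⟨h3, w, hw, hw2⟩]
    rw [hp1, ← add_sum_erase _ _ hw, if_neg (by omega), zero_add]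
    have h := sum_le_card_nsmul ((nb G S y).erase w)
      (fun v => if dg G S v = 3 then (1 : ℝ) else 0) 1 (fun v _ => by split_ifs <;> norm_num)
    have hc : ((nb G S y).erase w).card = 2 := by
      rw [card_erase_of_mem hw]
      have : (nb G S y).card = 3 := h3
      omega
    rw [hc, nsmul_eq_mul] at h
    exact_mod_cast h
  · have hp0 : pp G S y = 0 := by unfold pp; rw [if_neg hp]
    rw [hp0]; simp

lemma all_cubic {S : Finset V} (hneg : ∀ v ∈ S, gam G S v < 0) : ∀ v ∈ S, dg G S v = 3 := by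
  have h2 : ∀ v ∈ S, 2 ≤ dg G S v := fun v hv => two_le_dg hv (hneg v hv)
  set R : V → ℝ := fun v => (if dg G S v = 3 then -(13 / 1000 : ℝ) else 0) + tt G S v
    - 2 * (13 / 1000) * pp G S v
    + 13 / 1000 * (if dg G S v = 3 then ∑ y ∈ nb G S v, pp G S y else 0) with hR
  have hsum : ∑ v ∈ S, R v ≤ ∑ v ∈ S, gam G S v := by
    have e1 := sum_gam (G := G) S
    have e2 := slack_ge (G := G) S
    have e3 := share_le (G := G) S
    have e4 : ∑ v ∈ S, R v = ∑ v ∈ S, (if dg G S v = 3 then -(13 / 1000 : ℝ) else 0)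
        + ∑ v ∈ S, tt G S v - 2 * (13 / 1000) * ∑ v ∈ S, pp G S v
        + 13 / 1000 * ∑ v ∈ S, (if dg G S v = 3 then ∑ y ∈ nb G S v, pp G S y else 0) := by
      rw [mul_sum, mul_sum, ← sum_add_distrib, ← sum_sub_distrib, ← sum_add_distrib]
    linarith
  have hR0 : ∀ v ∈ S, dg G S v ≠ 3 → R v = 0 := by
    intro v _ h3
    have hp0 : pp G S v = 0 := by unfold pp; rw [if_neg (fun h => h3 h.1)]
    simp only [hR, tt, if_neg h3, hp0]
    ring
  have hle : ∀ v ∈ S, gam G S v ≤ R v := by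
    intro v hv
    by_cases h3 : dg G S v = 3
    swap
    · rw [hR0 v hv h3]; exact (hneg v hv).le
    have hRv : R v = -(13 / 1000 : ℝ) + ∑ w ∈ nb G S v, sl 3 (dg G S w)
        - 2 * (13 / 1000) * pp G S v + 13 / 1000 * ∑ y ∈ nb G S v, pp G S y := by
      simp only [hR, tt, if_pos h3]
    have hsl : ∀ w ∈ nb G S v, 0 ≤ sl 3 (dg G S w) :=
      fun w hw => slack_nonneg (by norm_num) (one_le_dg hv hw)
    have hps : 0 ≤ ∑ y ∈ nb G S v, pp G S y := sum_nonneg fun y _ => pp_nonneg S y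
    have hng := hneg v hv
    by_cases hA : ∃ w ∈ nb G S v, dg G S w = 2
    · obtain ⟨w, hw, hw2⟩ := hA
      have hp1 : pp G S v = 1 := by unfold pp; rw [if_pos ⟨h3, w, hw, hw2⟩]
      have h4 := single_le_sum hsl hw
      have h5 : 39 / 1000 ≤ sl 3 (dg G S w) := by rw [hw2]; exact slack_two
      rw [hRv, hp1]; linarith
    have hp0 : pp G S v = 0 := by unfold pp; rw [if_neg (fun h => hA h.2)]
    by_cases hB : ∃ w ∈ nb G S v, dg G S w ≠ 3
    · obtain ⟨w, hw, hw3⟩ := hB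
      have h4 := single_le_sum hsl hw
      have h5 : 13 / 1000 ≤ sl 3 (dg G S w) := slack_three (h2 w (mem_nb.1 hw).1) hw3
      rw [hRv, hp0]; linarith
    have hB' : ∀ w ∈ nb G S v, dg G S w = 3 := by
      intro w hw
      by_contra h
      exact hB ⟨w, hw, h⟩
    have hss : 0 ≤ ∑ w ∈ nb G S v, sl 3 (dg G S w) := sum_nonneg hsl
    by_cases hC : ∃ y ∈ nb G S v, ∃ w ∈ nb G S y, dg G S w = 2
    · obtain ⟨y, hy, w, hw, hw2⟩ := hC
      have hp1 : pp G S y = 1 := by unfold pp; rw [if_pos ⟨hB' y hy, w, hw, hw2⟩]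
      have h4 := single_le_sum (fun y (_ : y ∈ nb G S v) => pp_nonneg (G := G) S y) hy
      rw [hRv, hp0]; linarith
    have hc3 : (nb G S v).card = 3 := h3
    have h6 : ∑ u ∈ nb G S v, wt (dg G S u) = 3 * wt 3 := by
      rw [sum_congr rfl (fun u hu => by rw [hB' u hu]), sum_const, hc3, nsmul_eq_mul]
      norm_num
    have h7 : ∑ u ∈ nb G S v, ∑ w ∈ (nb G S u).erase v, dl (dg G S w) ≤ 3 * (2 * dl 3) := by
      have h := sum_le_card_nsmul (nb G S v)
        (fun u => ∑ w ∈ (nb G S u).erase v, dl (dg G S w)) (2 * dl 3) (fun u hu => by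
          have hvu : v ∈ nb G S u := mem_nb.2 ⟨hv, (mem_nb.1 hu).2.symm⟩
          have hc : ((nb G S u).erase v).card = 2 := by
            rw [card_erase_of_mem hvu]
            have : (nb G S u).card = 3 := hB' u hu
            omega
          have h' := sum_le_card_nsmul ((nb G S u).erase v) (fun w => dl (dg G S w)) (dl 3)
            (fun w hw => by
              have hw' := mem_of_mem_erase hw
              have a1 := h2 w (mem_nb.1 hw').1
              have a2 : dg G S w ≠ 2 := fun h => hC ⟨u, hu, w, hw', h⟩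
              exact dl_anti (by norm_num) (by omega))
          rw [hc, nsmul_eq_mul] at h'
          exact_mod_cast h')
      rw [hc3, nsmul_eq_mul] at h
      exact_mod_cast h
    rw [hRv, hp0]
    unfold gam
    rw [h3, h6, wt3]
    rw [dl3] at h7
    linarith
  intro v hv
  by_contra h3
  have hlt : ∑ v ∈ S, gam G S v < ∑ v ∈ S, R v :=
    sum_lt_sum hle ⟨v, hv, by rw [hR0 v hv h3]; exact hneg v hv⟩
  linarith

end Pool.Agent.MP_53c2ae_co

end

section

/-! The cubic case and the degree bound. -/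

namespace Pool.Agent.MP_53c2ae_co

open Finset

variable {V : Type} [DecidableEq V] {G : SimpleGraph V} [DecidableRel G.Adj]

lemma gam_two_three {S : Finset V} (h23 : ∀ v ∈ S, dg G S v = 2 ∨ dg G S v = 3) {w a : V}
    (hw : w ∈ S) (hw2 : dg G S w = 2) (ha : a ∈ nb G S w) (ha3 : dg G S a = 3) :
    13 / 1000 ≤ gam G S w := by
  have hin : ∀ u ∈ nb G S w, ((dg G S u : ℝ) - 1) * dl 3
      ≤ ∑ z ∈ (nb G S u).erase w, dl (dg G S z) := by
    intro u hu
    have hwu : w ∈ nb G S u := mem_nb.2 ⟨hw, (mem_nb.1 hu).2.symm⟩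
    have h := card_nsmul_le_sum ((nb G S u).erase w) (fun z => dl (dg G S z)) (dl 3)
      (fun z hz => by
        have hz' := h23 z (mem_nb.1 (mem_of_mem_erase hz)).1
        exact dl_anti (by omega) (by omega))
    have hc : (((nb G S u).erase w).card : ℝ) = (dg G S u : ℝ) - 1 := by
      have h1 : ((nb G S u).erase w).card + 1 = dg G S u := card_erase_add_one hwu
      rw [← h1]; push_cast; ring
    rw [nsmul_eq_mul, hc] at h
    exact h
  set cost : V → ℝ := fun u => wt (dg G S u) - ∑ z ∈ (nb G S u).erase w, dl (dg G S z) with hcost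
  have hc1 : cost a ≤ 2239 / 10000 := by
    have h := hin a ha
    simp only [hcost]
    rw [ha3] at h ⊢
    rw [dl3] at h
    rw [wt3]
    push_cast at h
    linarith
  have hc2 : ∀ u ∈ (nb G S w).erase a, cost u ≤ 3413 / 10000 := by
    intro u hu
    have hu' := mem_of_mem_erase hu
    have h := hin u hu'
    simp only [hcost]
    rw [dl3] at h
    rcases h23 u (mem_nb.1 hu').1 with h' | h'
    · rw [h'] at h ⊢; rw [wt2]; push_cast at h; linarith
    · rw [h'] at h ⊢; rw [wt3]; push_cast at h; linarith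
  have h3 := sum_le_card_nsmul _ cost _ hc2
  have hc : ((nb G S w).erase a).card = 1 := by
    rw [card_erase_of_mem ha]
    have : (nb G S w).card = 2 := hw2
    omega
  rw [hc, one_nsmul] at h3
  have h4 : gam G S w = 1 - wt (dg G S w) - ∑ u ∈ nb G S w, cost u := by
    unfold gam
    simp only [hcost]
    rw [sum_sub_distrib]; ring
  rw [h4, ← add_sum_erase _ _ ha, hw2, wt2]
  linarith

lemma nb_filter_eq {S : Finset V} (p : V → Prop) [DecidablePred p] {w : V}
    (h : ∀ u ∈ nb G S w, p u) : dg G (S.filter p) w = dg G S w := by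
  unfold dg
  congr 1
  ext u
  simp only [mem_nb, mem_filter]
  constructor
  · rintro ⟨⟨h1, _⟩, h2⟩; exact ⟨h1, h2⟩
  · rintro ⟨h1, h2⟩; exact ⟨⟨h1, h u (mem_nb.2 ⟨h1, h2⟩)⟩, h2⟩

lemma cubic_case (htf : ∀ a b c, G.Adj a b → G.Adj a c → ¬ G.Adj b c) {S : Finset V}
    (ih : ∀ T : Finset V, T.card < S.card → Ok G T (phi G T))
    (h3 : ∀ v ∈ S, dg G S v = 3) {x : V} (hx : x ∈ S) : Ok G S (phi G S) := by
  have hlt : (del G S x).card < S.card := card_del_lt hx
  have hsub : ∀ w ∈ del G S x, w ∈ S := fun w hw => (mem_del.1 hw).1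
  have hdg : ∀ w ∈ del G S x, dg G (del G S x) w + co G S x w = 3 := by
    intro w hw
    rw [dg_del hw, h3 w (hsub w hw)]
  have hc3 : (nb G S x).card = 3 := h3 x hx
  have hco : ∑ w ∈ del G S x, (co G S x w : ℝ) = 6 := by
    have h := sum_co htf S x (fun _ => (1 : ℝ))
    simp only [mul_one] at h
    rw [h]
    have h' : ∀ u ∈ nb G S x, ∑ _w ∈ (nb G S u).erase x, (1 : ℝ) = 2 := by
      intro u hu
      have hxu : x ∈ nb G S u := mem_nb.2 ⟨hx, (mem_nb.1 hu).2.symm⟩
      have hc : ((nb G S u).erase x).card = 2 := by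
        rw [card_erase_of_mem hxu]
        have : (nb G S u).card = 3 := h3 u (mem_nb.1 hu).1
        omega
      rw [sum_const, hc]; norm_num
    rw [sum_congr rfl h', sum_const, hc3]; norm_num
  have hphi : phi G (del G S x) = phi G S - 4 * wt 3
      + ∑ w ∈ del G S x, (wt (dg G (del G S x) w) - wt 3) := by
    rw [phi_del_eq hx, h3 x hx,
      sum_congr rfl (fun u hu => by rw [h3 u (mem_nb.1 hu).1] :
        ∀ u ∈ nb G S x, wt (dg G S u) = wt 3), sum_const, hc3, nsmul_eq_mul,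
      sum_congr rfl (fun w hw => by rw [h3 w (hsub w hw)] :
        ∀ w ∈ del G S x, wt (dg G (del G S x) w) - wt (dg G S w)
          = wt (dg G (del G S x) w) - wt 3)]
    push_cast; ring
  have hex : ∀ w ∈ del G S x,
      0 ≤ wt (dg G (del G S x) w) - wt 3 - (co G S x w : ℝ) * dl 3 := by
    intro w hw
    have h := gain_ge (G := G) hw
    rw [h3 w (hsub w hw)] at h
    linarith
  have hsumex : ∑ w ∈ del G S x, (wt (dg G (del G S x) w) - wt 3 - (co G S x w : ℝ) * dl 3)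
      = ∑ w ∈ del G S x, (wt (dg G (del G S x) w) - wt 3) - 6 * dl 3 := by
    rw [sum_sub_distrib, ← sum_mul, hco]
  have hbase : phi G S - 1 - 13 / 1000 ≤ phi G (del G S x) := by
    have h := sum_nonneg hex
    rw [hsumex, dl3] at h
    rw [hphi]
    nth_rewrite 1 [wt3]
    linarith
  by_cases hA : ∃ w ∈ del G S x, 2 ≤ co G S x w
  · obtain ⟨w, hw, hw2⟩ := hA
    have h1 := single_le_sum hex hw
    have h2 : 13 / 1000 ≤ wt (dg G (del G S x) w) - wt 3 - (co G S x w : ℝ) * dl 3 := by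
      have h := hdg w hw
      have h' : (dg G (del G S x) w = 1 ∧ co G S x w = 2)
          ∨ (dg G (del G S x) w = 0 ∧ co G S x w = 3) := by omega
      rcases h' with ⟨a, b⟩ | ⟨a, b⟩
      · rw [a, b, wt1, wt3, dl3]; norm_num
      · rw [a, b, wt0, wt3, dl3]; norm_num
    rw [hsumex] at h1
    refine (Ok.ins hx (ih _ hlt)).mono ?_
    rw [hphi]
    rw [dl3] at h1 h2
    nth_rewrite 1 [wt3]
    linarith
  have hA' : ∀ w ∈ del G S x, co G S x w ≤ 1 := by
    intro w hw
    by_contra h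
    exact hA ⟨w, hw, by omega⟩
  have h23 : ∀ w ∈ del G S x, dg G (del G S x) w = 2 ∨ dg G (del G S x) w = 3 := by
    intro w hw
    have a := hdg w hw
    have b := hA' w hw
    omega
  by_cases hB : ∃ w ∈ del G S x, dg G (del G S x) w = 2 ∧
      ∃ a ∈ nb G (del G S x) w, dg G (del G S x) a = 3
  · obtain ⟨w, hw, hw2, a, ha, ha3⟩ := hB
    have h1 := gam_two_three h23 hw hw2 ha ha3
    have h2 := phi_del_ge htf hw
    have hlt2 : (del G (del G S x) w).card < S.card := (card_del_lt hw).trans hlt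
    refine (Ok.ins hx (Ok.ins hw (ih _ hlt2))).mono ?_
    linarith
  set T := del G S x with hT
  have hD : ∀ w ∈ T, dg G T w = 2 → ∀ a ∈ nb G T w, dg G T a = 2 := by
    intro w hw hw2 a ha
    rcases h23 a (mem_nb.1 ha).1 with h | h
    · exact h
    · exact absurd ⟨w, hw, hw2, a, ha, h⟩ hB
  have hR : ∀ w ∈ T, ¬ dg G T w = 2 → ∀ a ∈ nb G T w, ¬ dg G T a = 2 := by
    intro w hw hw2 a ha ha2
    exact hw2 (hD a (mem_nb.1 ha).1 ha2 w (mem_nb.2 ⟨hw, (mem_nb.1 ha).2.symm⟩))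
  have hcardD : ((T.filter (fun w => dg G T w = 2)).card : ℝ) = 6 := by
    rw [← hco, card_filter]
    push_cast
    refine sum_congr rfl fun w hw => ?_
    have a := hdg w hw
    rcases h23 w hw with h | h
    · rw [if_pos h]
      have : co G S x w = 1 := by omega
      rw [this]; norm_num
    · rw [if_neg (by omega)]
      have : co G S x w = 0 := by omega
      rw [this]; norm_num
  have hphiD : phi G (T.filter (fun w => dg G T w = 2)) = 12 / 5 := by
    unfold phi
    rw [sum_congr rfl (fun w hw => by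
      rw [nb_filter_eq (fun w => dg G T w = 2) (hD w (mem_filter.1 hw).1 (mem_filter.1 hw).2),
        (mem_filter.1 hw).2] :
        ∀ w ∈ T.filter (fun w => dg G T w = 2),
          wt (dg G (T.filter (fun w => dg G T w = 2)) w) = wt 2), sum_const, nsmul_eq_mul,
      hcardD, wt2]
    norm_num
  have hphiT : phi G T = 12 / 5 + phi G (T.filter (fun w => ¬ dg G T w = 2)) := by
    rw [← hphiD]
    unfold phi
    rw [← sum_filter_add_sum_filter_not T (fun w => dg G T w = 2)]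
    congr 1
    · refine sum_congr rfl fun w hw => ?_
      rw [nb_filter_eq (fun w => dg G T w = 2) (hD w (mem_filter.1 hw).1 (mem_filter.1 hw).2)]
    · refine sum_congr rfl fun w hw => ?_
      rw [nb_filter_eq (fun w => ¬ dg G T w = 2) (hR w (mem_filter.1 hw).1 (mem_filter.1 hw).2)]
  obtain ⟨I, hI1, hI2, hI3⟩ := ih (T.filter (fun w => dg G T w = 2))
    ((card_filter_le _ _).trans_lt hlt)
  obtain ⟨J, hJ1, hJ2, hJ3⟩ := ih (T.filter (fun w => ¬ dg G T w = 2))
    ((card_filter_le _ _).trans_lt hlt)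
  have hI4 : 3 ≤ I.card := by
    rw [hphiD] at hI3
    by_contra h
    have h' : (I.card : ℝ) ≤ 2 := by exact_mod_cast (show I.card ≤ 2 by omega)
    linarith
  have hI5 : (3 : ℝ) ≤ I.card := by exact_mod_cast hI4
  have hIJ : ∀ a ∈ I, ∀ b ∈ J, ¬ G.Adj a b := by
    intro a ha b hb hab
    have a1 := mem_filter.1 (hI1 ha)
    have b1 := mem_filter.1 (hJ1 hb)
    exact b1.2 (hD a a1.1 a1.2 b (mem_nb.2 ⟨b1.1, hab⟩))
  have hdis : Disjoint I J := by
    rw [disjoint_left]
    intro a ha hb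
    exact (mem_filter.1 (hJ1 hb)).2 (mem_filter.1 (hI1 ha)).2
  have hOk : Ok G T (phi G T + 3 / 5) := by
    refine ⟨I ∪ J, ?_, ?_, ?_⟩
    · intro a ha
      rcases mem_union.1 ha with h | h
      · exact (mem_filter.1 (hI1 h)).1
      · exact (mem_filter.1 (hJ1 h)).1
    · intro a ha b hb
      rcases mem_union.1 ha with h | h <;> rcases mem_union.1 hb with h' | h'
      · exact hI2 a h b h'
      · exact hIJ a h b h'
      · exact fun hab => hIJ b h' a h hab.symm
      · exact hJ2 a h b h'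
    · rw [card_union_of_disjoint hdis]
      push_cast
      linarith
  refine (Ok.ins hx hOk).mono ?_
  linarith

theorem ok_phi (htf : ∀ a b c, G.Adj a b → G.Adj a c → ¬ G.Adj b c) (n : ℕ) :
    ∀ S : Finset V, S.card < n → Ok G S (phi G S) := by
  induction n with
  | zero => intro S h; omega
  | succ n ihn =>
    intro S hS
    have ih : ∀ T : Finset V, T.card < S.card → Ok G T (phi G T) :=
      fun T hT => ihn T (by omega)
    by_cases hA : ∃ v ∈ S, 0 ≤ gam G S v
    · obtain ⟨v, hv, h0⟩ := hA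
      have h1 := phi_del_ge htf hv
      exact (Ok.ins hv (ih _ (card_del_lt hv))).mono (by linarith)
    · have hneg : ∀ v ∈ S, gam G S v < 0 := by
        intro v hv
        by_contra h
        exact hA ⟨v, hv, not_lt.1 h⟩
      rcases S.eq_empty_or_nonempty with rfl | ⟨x, hx⟩
      · exact ⟨∅, Subset.refl _, by simp, by simp [phi]⟩
      · exact cubic_case htf ih (all_cubic hneg) hx

/-- The degree bound: a triangle-free graph has independence number at least the sum of the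
weights of the degrees. -/
theorem degree_bound [Fintype V] (h : G.CliqueFree 3) :
    ∑ v, wt (G.degree v) ≤ (G.indepNum : ℝ) := by
  have htf : ∀ a b c, G.Adj a b → G.Adj a c → ¬ G.Adj b c := by
    intro a b c hab hac hbc
    exact h {a, b, c} (SimpleGraph.is3Clique_triple_iff.2 ⟨hab, hac, hbc⟩)
  obtain ⟨I, _, hI2, hI3⟩ := ok_phi htf _ (univ : Finset V) (Nat.lt_succ_self _)
  have h1 : phi G (univ : Finset V) = ∑ v, wt (G.degree v) := by
    unfold phi
    refine sum_congr rfl fun v _ => ?_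
    congr 1
    unfold dg nb
    rw [← SimpleGraph.card_neighborFinset_eq_degree, SimpleGraph.neighborFinset_eq_filter]
  have h2 : G.IsIndepSet (I : Set V) := fun a ha b hb _ => hI2 a ha b hb
  have h3 : I.card ≤ G.indepNum := h2.card_le_indepNum
  have h4 : (I.card : ℝ) ≤ G.indepNum := by exact_mod_cast h3
  linarith

end Pool.Agent.MP_53c2ae_co

end
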