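import Pool.Agent.Mg.F53c2ae.Gc8ee5f

/-! Size of the weights. -/

namespace Pool.Agent.MP_53c2ae_co

/-- Degree times weight. -/
noncomputable def hh (d : ℕ) : ℝ := (d : ℝ) * wt d

lemma hh_rec (d : ℕ) :
    hh (d + 4) * (((d : ℝ) + 4) ^ 2 + 1) = ((d : ℝ) + 4) + ((d : ℝ) + 4) ^ 2 * hh (d + 3) := by
  have h := wt_rec d
  unfold hh
  push_cast
  rw [mul_assoc, h]
  ring

lemma hh_step (d : ℕ) {a b : ℝ} (ha : a ≤ hh (d + 3))
    (hb : b * (((d : ℝ) + 4) ^ 2 + 1) ≤ ((d : ℝ) + 4) + ((d : ℝ) + 4) ^ 2 * a) :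
    b ≤ hh (d + 4) := by
  have h := hh_rec d
  have hq : (0 : ℝ) < ((d : ℝ) + 4) ^ 2 + 1 := by positivity
  have h1 : ((d : ℝ) + 4) ^ 2 * a ≤ ((d : ℝ) + 4) ^ 2 * hh (d + 3) :=
    mul_le_mul_of_nonneg_left ha (by positivity)
  exact le_of_mul_le_mul_right (by linarith) hq

lemma hh_64 : (347202 / 100000 : ℝ) ≤ hh 64 := by
  have h3 : (10239 / 10000 : ℝ) ≤ hh 3 := by unfold hh; rw [wt3]; norm_num
  have h4 : (119896470 / 100000000 : ℝ) ≤ hh 4 := hh_step 0 h3 (by norm_num)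
  have h5 : (134515836 / 100000000 : ℝ) ≤ hh 5 := hh_step 1 h4 (by norm_num)
  have h6 : (147096489 / 100000000 : ℝ) ≤ hh 6 := hh_step 2 h5 (by norm_num)
  have h7 : (158154559 / 100000000 : ℝ) ≤ hh 7 := hh_step 3 h6 (by norm_num)
  have h8 : (168029104 / 100000000 : ℝ) ≤ hh 8 := hh_step 4 h7 (by norm_num)
  have h9 : (176955578 / 100000000 : ℝ) ≤ hh 9 := hh_step 5 h8 (by norm_num)
  have h10 : (185104532 / 100000000 : ℝ) ≤ hh 10 := hh_step 6 h9 (by norm_num)
  have h11 : (192603675 / 100000000 : ℝ) ≤ hh 11 := hh_step 7 h10 (by norm_num)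
  have h12 : (199551235 / 100000000 : ℝ) ≤ hh 12 := hh_step 8 h11 (by norm_num)
  have h13 : (206024463 / 100000000 : ℝ) ≤ hh 13 := hh_step 9 h12 (by norm_num)
  have h14 : (212085252 / 100000000 : ℝ) ≤ hh 14 := hh_step 10 h13 (by norm_num)
  have h15 : (217783989 / 100000000 : ℝ) ≤ hh 15 := hh_step 11 h14 (by norm_num)
  have h16 : (223162261 / 100000000 : ℝ) ≤ hh 16 := hh_step 12 h15 (by norm_num)
  have h17 : (228254804 / 100000000 : ℝ) ≤ hh 17 := hh_step 13 h16 (by norm_num)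
  have h18 : (233090943 / 100000000 : ℝ) ≤ hh 18 := hh_step 14 h17 (by norm_num)
  have h19 : (237695664 / 100000000 : ℝ) ≤ hh 19 := hh_step 15 h18 (by norm_num)
  have h20 : (242090437 / 100000000 : ℝ) ≤ hh 20 := hh_step 16 h19 (by norm_num)
  have h21 : (246293852 / 100000000 : ℝ) ≤ hh 21 := hh_step 17 h20 (by norm_num)
  have h22 : (250322112 / 100000000 : ℝ) ≤ hh 22 := hh_step 18 h21 (by norm_num)
  have h23 : (254189428 / 100000000 : ℝ) ≤ hh 23 := hh_step 19 h22 (by norm_num)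
  have h24 : (257908337 / 100000000 : ℝ) ≤ hh 24 := hh_step 20 h23 (by norm_num)
  have h25 : (261489953 / 100000000 : ℝ) ≤ hh 25 := hh_step 21 h24 (by norm_num)
  have h26 : (264944177 / 100000000 : ℝ) ≤ hh 26 := hh_step 22 h25 (by norm_num)
  have h27 : (268279869 / 100000000 : ℝ) ≤ hh 27 := hh_step 23 h26 (by norm_num)
  have h28 : (271504990 / 100000000 : ℝ) ≤ hh 28 := hh_step 24 h27 (by norm_num)
  have h29 : (274626718 / 100000000 : ℝ) ≤ hh 29 := hh_step 25 h28 (by norm_num)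
  have h30 : (277651549 / 100000000 : ℝ) ≤ hh 30 := hh_step 26 h29 (by norm_num)
  have h31 : (280585383 / 100000000 : ℝ) ≤ hh 31 := hh_step 27 h30 (by norm_num)
  have h32 : (283433592 / 100000000 : ℝ) ≤ hh 32 := hh_step 28 h31 (by norm_num)
  have h33 : (286201084 / 100000000 : ℝ) ≤ hh 33 := hh_step 29 h32 (by norm_num)
  have h34 : (288892353 / 100000000 : ℝ) ≤ hh 34 := hh_step 30 h33 (by norm_num)
  have h35 : (291511527 / 100000000 : ℝ) ≤ hh 35 := hh_step 31 h34 (by norm_num)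
  have h36 : (294062404 / 100000000 : ℝ) ≤ hh 36 := hh_step 32 h35 (by norm_num)
  have h37 : (296548489 / 100000000 : ℝ) ≤ hh 37 := hh_step 33 h36 (by norm_num)
  have h38 : (298973022 / 100000000 : ℝ) ≤ hh 38 := hh_step 34 h37 (by norm_num)
  have h39 : (301339005 / 100000000 : ℝ) ≤ hh 39 := hh_step 35 h38 (by norm_num)
  have h40 : (303649224 / 100000000 : ℝ) ≤ hh 40 := hh_step 36 h39 (by norm_num)
  have h41 : (305906269 / 100000000 : ℝ) ≤ hh 41 := hh_step 37 h40 (by norm_num)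
  have h42 : (308112554 / 100000000 : ℝ) ≤ hh 42 := hh_step 38 h41 (by norm_num)
  have h43 : (310270330 / 100000000 : ℝ) ≤ hh 43 := hh_step 39 h42 (by norm_num)
  have h44 : (312381703 / 100000000 : ℝ) ≤ hh 44 := hh_step 40 h43 (by norm_num)
  have h45 : (314448641 / 100000000 : ℝ) ≤ hh 45 := hh_step 41 h44 (by norm_num)
  have h46 : (316472992 / 100000000 : ℝ) ≤ hh 46 := hh_step 42 h45 (by norm_num)
  have h47 : (318456488 / 100000000 : ℝ) ≤ hh 47 := hh_step 43 h46 (by norm_num)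
  have h48 : (320400758 / 100000000 : ℝ) ≤ hh 48 := hh_step 44 h47 (by norm_num)
  have h49 : (322307335 / 100000000 : ℝ) ≤ hh 49 := hh_step 45 h48 (by norm_num)
  have h50 : (324177663 / 100000000 : ℝ) ≤ hh 50 := hh_step 46 h49 (by norm_num)
  have h51 : (326013105 / 100000000 : ℝ) ≤ hh 51 := hh_step 47 h50 (by norm_num)
  have h52 : (327814948 / 100000000 : ℝ) ≤ hh 52 := hh_step 48 h51 (by norm_num)
  have h53 : (329584408 / 100000000 : ℝ) ≤ hh 53 := hh_step 49 h52 (by norm_num)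
  have h54 : (331322637 / 100000000 : ℝ) ≤ hh 54 := hh_step 50 h53 (by norm_num)
  have h55 : (333030726 / 100000000 : ℝ) ≤ hh 55 := hh_step 51 h54 (by norm_num)
  have h56 : (334709708 / 100000000 : ℝ) ≤ hh 56 := hh_step 52 h55 (by norm_num)
  have h57 : (336360566 / 100000000 : ℝ) ≤ hh 57 := hh_step 53 h56 (by norm_num)
  have h58 : (337984232 / 100000000 : ℝ) ≤ hh 58 := hh_step 54 h57 (by norm_num)
  have h59 : (339581594 / 100000000 : ℝ) ≤ hh 59 := hh_step 55 h58 (by norm_num)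
  have h60 : (341153495 / 100000000 : ℝ) ≤ hh 60 := hh_step 56 h59 (by norm_num)
  have h61 : (342700740 / 100000000 : ℝ) ≤ hh 61 := hh_step 57 h60 (by norm_num)
  have h62 : (344224094 / 100000000 : ℝ) ≤ hh 62 := hh_step 58 h61 (by norm_num)
  have h63 : (345724289 / 100000000 : ℝ) ≤ hh 63 := hh_step 59 h62 (by norm_num)
  have h64 : (347202022 / 100000000 : ℝ) ≤ hh 64 := hh_step 60 h63 (by norm_num)
  linarith

lemma log_step {y : ℝ} (hy : 6 ≤ y) :
    Real.log (y + 1) - Real.log y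
      ≤ 1 / (y + 1) + 1 / (2 * (y + 1) ^ 2) + 1 / (2 * (y + 1) ^ 3) := by
  have hy0 : 0 < y := by linarith
  set x : ℝ := 1 / (y + 1) with hx
  have hx0 : 0 < x := by positivity
  have hx1 : x ≤ 1 / 7 := by
    rw [hx]; exact one_div_le_one_div_of_le (by norm_num) (by linarith)
  have h1 : Real.log (1 - x) = Real.log y - Real.log (y + 1) := by
    rw [← Real.log_div hy0.ne' (by linarith)]
    congr 1
    rw [hx]; field_simp; ring
  have h2 := Real.abs_log_sub_add_sum_range_le (x := x) (by rw [abs_of_pos hx0]; linarith) 3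
  rw [abs_of_pos hx0, h1] at h2
  have h3 := (abs_le.1 h2).1
  simp only [Finset.sum_range_succ, Finset.sum_range_zero] at h3
  norm_num at h3
  have h4 : x ^ 4 / (1 - x) ≤ x ^ 3 / 6 := by
    rw [div_le_iff₀ (by linarith)]
    have := pow_pos hx0 3
    nlinarith
  have h5 : 1 / (2 * (y + 1) ^ 2) = x ^ 2 / 2 := by rw [hx]; field_simp
  have h6 : 1 / (2 * (y + 1) ^ 3) = x ^ 3 / 2 := by rw [hx]; field_simp
  rw [h5, h6]
  linarith

theorem hh_ge {k : ℕ} (hk : 64 ≤ k) :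
    Real.log k - 0.764 + (Real.log k + 0.77) / k ≤ hh k := by
  induction k, hk using Nat.le_induction with
  | base =>
    have h1 := hh_64
    have h2 : Real.log ((64 : ℕ) : ℝ) = 6 * Real.log 2 := by
      rw [show ((64 : ℕ) : ℝ) = 2 ^ 6 by norm_num, Real.log_pow]; norm_num
    have h3 := Real.log_two_lt_d9
    rw [h2]
    push_cast
    norm_num at h3 ⊢
    linarith
  | succ n hn ih =>
    obtain ⟨d, rfl⟩ : ∃ d, n = d + 3 := ⟨n - 3, by omega⟩
    refine hh_step d ih ?_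
    have hy : (64 : ℝ) ≤ ((d + 3 : ℕ) : ℝ) := by exact_mod_cast hn
    have e1 : ((d + 3 + 1 : ℕ) : ℝ) = ((d + 3 : ℕ) : ℝ) + 1 := by push_cast; ring
    have e2 : (d : ℝ) + 4 = ((d + 3 : ℕ) : ℝ) + 1 := by push_cast; ring
    rw [e1, e2]
    set y : ℝ := ((d + 3 : ℕ) : ℝ)
    have hy0 : 0 < y := by linarith
    have hs := log_step (y := y) (by linarith)
    have hl : 0 ≤ Real.log (y + 1) := Real.log_nonneg (by linarith)
    set l := Real.log (y + 1)
    set l' := Real.log y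
    have h1 : l - (1 / (y + 1) + 1 / (2 * (y + 1) ^ 2) + 1 / (2 * (y + 1) ^ 3)) ≤ l' := by
      linarith
    set τ : ℝ := 1 / (y + 1) + 1 / (2 * (y + 1) ^ 2) + 1 / (2 * (y + 1) ^ 3) with hτ
    have h2 : (l - τ) - 0.764 + ((l - τ) + 0.77) / y ≤ l' - 0.764 + (l' + 0.77) / y := by
      have : ((l - τ) + 0.77) / y ≤ (l' + 0.77) / y :=
        div_le_div_of_nonneg_right (by linarith) hy0.le
      linarith
    have h3 : (y + 1) ^ 2 * ((l - τ) - 0.764 + ((l - τ) + 0.77) / y)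
        ≤ (y + 1) ^ 2 * (l' - 0.764 + (l' + 0.77) / y) :=
      mul_le_mul_of_nonneg_left h2 (by positivity)
    have h4 : (y + 1) + (y + 1) ^ 2 * ((l - τ) - 0.764 + ((l - τ) + 0.77) / y)
        - (l - 0.764 + (l + 0.77) / (y + 1)) * ((y + 1) ^ 2 + 1)
        = (l + 0.77) / (y * (y + 1)) + (0.034 * y - 2) / y := by
      rw [hτ]
      field_simp
      ring
    have h5 : 0 ≤ (l + 0.77) / (y * (y + 1)) := by positivity
    have h6 : 0 ≤ (0.034 * y - 2) / y := div_nonneg (by linarith) hy0.le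
    linarith

end Pool.Agent.MP_53c2ae_co
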